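import Mathlib

/-!
The maximal-shattering sequence need not be non-decreasing.

For every set `K` of integers `≥ 2` we build a set system on an infinite set, of finite VC-dimension,
whose `k`-fold union family has VC-dimension exactly `2 * k + 1` for every `k ≥ 1` and whose
maximal-shattering sequence is `s k = 2` for `k ∈ K` and `s k = 1` for `k ∉ K`.
-/

set_option autoImplicit false

namespace Pool.Agent.Results.MP_522a36_co.ShatteringSeq

open Set

variable {X : Type*}

/-- `S` shatters `Y`: every subset of `Y` is the intersection of `Y` with a member of `S`. -/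
def Shatters (S : Set (Set X)) (Y : Set X) : Prop :=
  ∀ Z : Set X, Z ⊆ Y → ∃ A ∈ S, A ∩ Y = Z

/-- The sizes of the finite sets shattered by `S`. -/
def shatteredSizes (S : Set (Set X)) : Set ℕ :=
  {n | ∃ Y : Finset X, Shatters S (Y : Set X) ∧ Y.card = n}

/-- The VC-dimension (it is used only when `shatteredSizes S` has a greatest element). -/
noncomputable def VC (S : Set (Set X)) : ℕ := sSup (shatteredSizes S)

/-- The `k`-fold union family. -/
def unionFam (S : Set (Set X)) (k : ℕ) : Set (Set X) :=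
  {A | ∃ f : Fin k → Set X, (∀ i, f i ∈ S) ∧ A = ⋃ i, f i}

/-- The trace family of `S` on `Y`. -/
def traceFam (S : Set (Set X)) (Y : Set X) : Set (Set X) :=
  {T | ∃ A ∈ S, T = A ∩ Y}

/-- Shatter-isomorphism of two finite sets: a bijection `Y → Y'` carrying the trace family of `S`
on `Y` onto the trace family of `S` on `Y'`. -/
def ShatterIso (S : Set (Set X)) (Y Y' : Finset X) : Prop :=
  ∃ f : X → X, BijOn f (Y : Set X) (Y' : Set X) ∧
    {T | ∃ U ∈ traceFam S (Y : Set X), T = f '' U} = traceFam S (Y' : Set X)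

/-- The finite sets of size `VC (S^{∪k})` that are shattered by `S^{∪k}`. -/
def maxShattered (S : Set (Set X)) (k : ℕ) : Set (Finset X) :=
  {Y | Shatters (unionFam S k) (Y : Set X) ∧ Y.card = VC (unionFam S k)}

/-- `s_k`: the number of shatter-isomorphism classes in `maxShattered S k`. -/
noncomputable def sSeq (S : Set (Set X)) (k : ℕ) : ℕ :=
  Set.ncard {C : Set (Finset X) | ∃ Y ∈ maxShattered S k,
    C = {Y' | Y' ∈ maxShattered S k ∧ ShatterIso S Y Y'}}

/-! ### The construction -/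

/-- The ground set of gadget `i` (all of `ℕ` for `i = 0`, and `{0, …, 2i}` otherwise). -/
def V (i : ℕ) : Set ℕ := {x | i = 0 ∨ x < 2 * i + 1}

/-- The edges of gadget `i`: all pairs for `i = 0`, and the edges of the cycle of length `2i+1`
otherwise. -/
def E (i x y : ℕ) : Prop := i = 0 ∨ y = (x + 1) % (2 * i + 1)

/-- The family of gadget `i`: the whole set and all subsets of edges. -/
def F (i : ℕ) : Set (Set ℕ) :=
  {T | T = V i ∨ ∃ x ∈ V i, ∃ y ∈ V i, E i x y ∧ T ⊆ {x, y}}

/-- The member of the system attached to a member `T` of the family of gadget `i`: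
it contains everything outside gadget `i`. -/
def mem (i : ℕ) (T : Set ℕ) : Set (ℕ × ℕ) := {p | p.1 = i → p.2 ∈ V i → p.2 ∈ T}

/-- The set system. -/
def Sys (K : Set ℕ) : Set (Set (ℕ × ℕ)) :=
  {B | ∃ i, (i = 0 ∨ i ∈ K) ∧ ∃ T ∈ F i, B = mem i T}

/-- `Z` lies in gadget `i`. -/
def InGadget (i : ℕ) (Z : Finset (ℕ × ℕ)) : Prop := ∀ p ∈ Z, p.1 = i ∧ p.2 ∈ V i

lemma inGadget_of_shatters {K : Set ℕ} {k : ℕ} (hk : 1 ≤ k) {Z : Finset (ℕ × ℕ)}
    (h : Shatters (unionFam (Sys K) k) (Z : Set (ℕ × ℕ))) :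
    ∃ i, (i = 0 ∨ i ∈ K) ∧ InGadget i Z := by
  obtain ⟨A, ⟨f, hf, rfl⟩, hA⟩ := h ∅ (empty_subset _)
  obtain ⟨i, hi, T, -, hT⟩ := hf ⟨0, hk⟩
  refine ⟨i, hi, fun p hp => ?_⟩
  have hp' : p ∉ f ⟨0, hk⟩ := by
    intro hpf
    have : p ∈ (⋃ i, f i) ∩ (Z : Set (ℕ × ℕ)) := ⟨mem_iUnion.2 ⟨_, hpf⟩, hp⟩
    rw [hA] at this
    exact this
  rw [hT] at hp'
  simp only [mem, mem_ofPred_eq, Classical.not_imp] at hp'
  exact ⟨hp'.1, hp'.2.1⟩

/-- A proper subset of a shattered set in gadget `i` is the union of `k` traces of edges. -/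
lemma exists_cover {K : Set ℕ} {k : ℕ} {Z : Finset (ℕ × ℕ)} {i : ℕ}
    (hZ : InGadget i Z)
    (h : Shatters (unionFam (Sys K) k) (Z : Set (ℕ × ℕ))) (U : Finset (ℕ × ℕ)) (hU : U ⊂ Z) :
    ∃ g : Fin k → Finset (ℕ × ℕ), (∀ j, g j ⊆ U ∧ ∃ x y, E i x y ∧ g j ⊆ {(i, x), (i, y)}) ∧
      U = Finset.univ.biUnion g := by
  classical
  obtain ⟨A, ⟨f, hf, rfl⟩, hA⟩ := h (U : Set (ℕ × ℕ)) (by exact_mod_cast hU.1)
  have hfU : ∀ j, ∀ p ∈ Z, p ∈ f j → p ∈ U := by
    intro j p hp hpf
    have : p ∈ (⋃ i, f i) ∩ (Z : Set (ℕ × ℕ)) := ⟨mem_iUnion.2 ⟨_, hpf⟩, hp⟩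
    rw [hA] at this
    exact this
  have hnot : ∀ j, ¬ (∀ p ∈ Z, p ∈ f j) := fun j hj =>
    hU.2 fun p hp => hfU j p hp (hj p hp)
  refine ⟨fun j => Z.filter (fun p => p ∈ f j), fun j => ⟨?_, ?_⟩, ?_⟩
  · intro p hp
    rw [Finset.mem_filter] at hp
    exact hfU j p hp.1 hp.2
  · obtain ⟨i', hi', T, hT, hfj⟩ := hf j
    have hii : i' = i := by
      by_contra hne
      refine hnot j fun p hp => ?_
      rw [hfj]
      intro h1
      exact absurd (h1.symm.trans (hZ p hp).1) hne
    subst hii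
    rcases hT with hT | ⟨x, hx, y, hy, hE, hT⟩
    · exfalso
      refine hnot j fun p hp => ?_
      rw [hfj, hT]
      exact fun _ h2 => h2
    · refine ⟨x, y, hE, ?_⟩
      intro p hp
      rw [Finset.mem_filter, hfj] at hp
      have h1 := hZ p hp.1
      have h2 := hT (hp.2 h1.1 h1.2)
      rcases h2 with h2 | h2
      · simp [Prod.ext_iff, h1.1, h2]
      · simp only [mem_singleton_iff] at h2
        simp [Prod.ext_iff, h1.1, h2]
  · ext p
    simp only [Finset.mem_biUnion, Finset.mem_univ, true_and, Finset.mem_filter]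
    constructor
    · intro hp
      have : p ∈ (⋃ i, f i) ∩ (Z : Set (ℕ × ℕ)) := by
        rw [hA]; exact hp
      obtain ⟨h1, h2⟩ := this
      obtain ⟨j, hj⟩ := mem_iUnion.1 h1
      exact ⟨j, h2, hj⟩
    · rintro ⟨j, hj1, hj2⟩
      exact hfU j p hj1 hj2

lemma card_le_of_shatters {K : Set ℕ} {k : ℕ} (hk : 1 ≤ k) {Z : Finset (ℕ × ℕ)}
    (h : Shatters (unionFam (Sys K) k) (Z : Set (ℕ × ℕ))) : Z.card ≤ 2 * k + 1 := by
  classical
  by_contra hlt
  push Not at hlt
  obtain ⟨i, -, hZ⟩ := inGadget_of_shatters hk h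
  obtain ⟨U, hUZ, hUc⟩ := Finset.exists_subset_card_eq (show 2 * k + 1 ≤ Z.card by omega)
  have hU : U ⊂ Z := by
    refine ⟨hUZ, fun hle => ?_⟩
    have := Finset.card_le_card hle
    omega
  obtain ⟨g, hg, hgU⟩ := exists_cover hZ h U hU
  have : U.card ≤ Finset.card (Finset.univ : Finset (Fin k)) * 2 := by
    rw [hgU]
    refine Finset.card_biUnion_le_card_mul _ _ _ fun j _ => ?_
    obtain ⟨-, x, y, -, hxy⟩ := hg j
    exact (Finset.card_le_card hxy).trans Finset.card_le_two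
  rw [Finset.card_univ, Fintype.card_fin] at this
  omega

/-- Sufficient condition for being shattered. -/
lemma shatters_of_pairing {K : Set ℕ} {k : ℕ} (hk : 1 ≤ k) {Z : Finset (ℕ × ℕ)} {i : ℕ}
    (hi : i = 0 ∨ i ∈ K) (hZ : InGadget i Z)
    (h : ∀ z ∈ Z, ∃ x y : Fin k → ℕ, (∀ j, x j ∈ V i ∧ y j ∈ V i ∧ E i (x j) (y j)) ∧
      ∀ p ∈ Z, p ≠ z → ∃ j, p.2 = x j ∨ p.2 = y j) :
    Shatters (unionFam (Sys K) k) (Z : Set (ℕ × ℕ)) := by
  classical
  intro U hU
  by_cases hUZ : (Z : Set (ℕ × ℕ)) ⊆ U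
  · have hUeq : U = (Z : Set (ℕ × ℕ)) := Subset.antisymm hU hUZ
    refine ⟨⋃ _ : Fin k, mem i (V i), ⟨fun _ => mem i (V i), fun _ => ⟨i, hi, V i, Or.inl rfl, rfl⟩,
      rfl⟩, ?_⟩
    rw [hUeq]
    ext p
    simp only [mem_inter_iff, mem_iUnion, and_iff_right_iff_imp]
    intro _
    exact ⟨⟨0, hk⟩, fun _ h2 => h2⟩
  · obtain ⟨z, hz, hzU⟩ := not_subset.1 hUZ
    obtain ⟨x, y, hxy, hcov⟩ := h z hz
    refine ⟨⋃ j : Fin k, mem i {a | (a = x j ∨ a = y j) ∧ (i, a) ∈ U},
      ⟨_, fun j => ⟨i, hi, _, Or.inr ⟨x j, (hxy j).1, y j, (hxy j).2.1, (hxy j).2.2, ?_⟩, rfl⟩, rfl⟩,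
      ?_⟩
    · rintro a ⟨ha, -⟩
      rcases ha with ha | ha <;> simp [ha]
    · ext p
      simp only [mem_inter_iff, mem_iUnion]
      constructor
      · rintro ⟨⟨j, hj⟩, hpZ⟩
        have h1 := hZ p hpZ
        have h2 := (hj h1.1 h1.2).2
        have h3 : (i, p.2) = p := Prod.ext h1.1.symm rfl
        rwa [h3] at h2
      · intro hpU
        have hpZ := hU hpU
        have h1 := hZ p hpZ
        have hpz : p ≠ z := fun hpz => hzU (hpz ▸ hpU)
        obtain ⟨j, hj⟩ := hcov p hpZ hpz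
        refine ⟨⟨j, fun _ _ => ⟨hj, ?_⟩⟩, hpZ⟩
        have h3 : (i, p.2) = p := Prod.ext h1.1.symm rfl
        rwa [h3]

/-- Every set of size `2k+1` in gadget `0` is shattered by the `k`-fold union family. -/
lemma shatters_gadget_zero {K : Set ℕ} {k : ℕ} (hk : 1 ≤ k) {Z : Finset (ℕ × ℕ)}
    (hZ : InGadget 0 Z) (hc : Z.card = 2 * k + 1) :
    Shatters (unionFam (Sys K) k) (Z : Set (ℕ × ℕ)) := by
  classical
  refine shatters_of_pairing hk (Or.inl rfl) hZ fun z hz => ?_
  have hcard : (Z.erase z).card = 2 * k := by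
    rw [Finset.card_erase_of_mem hz, hc]; omega
  let e := (Z.erase z).equivFinOfCardEq hcard
  refine ⟨fun j => (e.symm ⟨2 * j.1, by omega⟩).1.2, fun j => (e.symm ⟨2 * j.1 + 1, by omega⟩).1.2,
    fun j => ⟨Or.inl rfl, Or.inl rfl, Or.inl rfl⟩, fun p hp hpz => ?_⟩
  have hp' : p ∈ Z.erase z := Finset.mem_erase.2 ⟨hpz, hp⟩
  set m := e ⟨p, hp'⟩ with hm
  have hem : e.symm m = ⟨p, hp'⟩ := by rw [hm, Equiv.symm_apply_apply]
  have hm2 := m.2
  refine ⟨⟨m.1 / 2, by omega⟩, ?_⟩
  rcases Nat.even_or_odd' m.1 with ⟨c, hc' | hc'⟩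
  · left
    have : (⟨2 * (m.1 / 2), by omega⟩ : Fin (2 * k)) = m := Fin.ext (by simp only; omega)
    simp only [this, hem]
  · right
    have : (⟨2 * (m.1 / 2) + 1, by omega⟩ : Fin (2 * k)) = m := Fin.ext (by simp only; omega)
    simp only [this, hem]

/-- The whole of gadget `k`. -/
def whole (k : ℕ) : Finset (ℕ × ℕ) := (Finset.range (2 * k + 1)).image (fun x => (k, x))

lemma card_whole (k : ℕ) : (whole k).card = 2 * k + 1 := by
  rw [whole, Finset.card_image_of_injective _ (Prod.mk_right_injective k), Finset.card_range]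

lemma mem_whole {k : ℕ} {p : ℕ × ℕ} : p ∈ whole k ↔ p.1 = k ∧ p.2 < 2 * k + 1 := by
  simp only [whole, Finset.mem_image, Finset.mem_range]
  constructor
  · rintro ⟨x, hx, rfl⟩
    exact ⟨rfl, hx⟩
  · rintro ⟨h1, h2⟩
    exact ⟨p.2, h2, Prod.ext h1.symm rfl⟩

lemma inGadget_whole (k : ℕ) : InGadget k (whole k) := fun _ hp =>
  ⟨(mem_whole.1 hp).1, Or.inr (mem_whole.1 hp).2⟩

lemma shatters_whole {K : Set ℕ} {k : ℕ} (hk : 1 ≤ k) (hkK : k ∈ K) :
    Shatters (unionFam (Sys K) k) (whole k : Set (ℕ × ℕ)) := by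
  refine shatters_of_pairing hk (Or.inr hkK) (inGadget_whole k) fun z hz => ?_
  obtain ⟨-, hz2⟩ := mem_whole.1 hz
  set v := z.2 with hv
  refine ⟨fun j => (v + 1 + 2 * j.1) % (2 * k + 1), fun j => (v + 1 + 2 * j.1 + 1) % (2 * k + 1),
    fun j => ⟨Or.inr (Nat.mod_lt _ (by omega)), Or.inr (Nat.mod_lt _ (by omega)), Or.inr ?_⟩,
    fun p hp hpz => ?_⟩
  · simp only [Nat.mod_add_mod]
  · obtain ⟨hp1, hp2⟩ := mem_whole.1 hp
    have hne : p.2 ≠ v := by
      intro h
      apply hpz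
      refine Prod.ext ?_ h
      rw [hp1, (mem_whole.1 hz).1]
    -- offset of `p.2` from `v`
    by_cases hlt : v < p.2
    · rcases Nat.even_or_odd' (p.2 - v) with ⟨c, hc | hc⟩
      · refine ⟨⟨c - 1, by omega⟩, Or.inr ?_⟩
        simp only
        rw [Nat.mod_eq_of_lt (by omega)]
        omega
      · refine ⟨⟨c, by omega⟩, Or.inl ?_⟩
        simp only
        rw [Nat.mod_eq_of_lt (by omega)]
        omega
    · rcases Nat.even_or_odd' (p.2 + (2 * k + 1) - v) with ⟨c, hc | hc⟩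
      · refine ⟨⟨c - 1, by omega⟩, Or.inr ?_⟩
        simp only
        have : v + 1 + 2 * (c - 1) + 1 = p.2 + (2 * k + 1) := by omega
        rw [this, Nat.add_mod_right, Nat.mod_eq_of_lt (by omega)]
      · refine ⟨⟨c, by omega⟩, Or.inl ?_⟩
        simp only
        have : v + 1 + 2 * c = p.2 + (2 * k + 1) := by omega
        rw [this, Nat.add_mod_right, Nat.mod_eq_of_lt (by omega)]

/-- A set of size `2k+1` in gadget `i ≠ 0` which is shattered by the `k`-fold union family is the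
whole of gadget `i`, and `i = k`. -/
lemma eq_whole {K : Set ℕ} {k : ℕ} (hk : 1 ≤ k) {Z : Finset (ℕ × ℕ)} {i : ℕ} (hi : i ≠ 0)
    (hZ : InGadget i Z) (hc : Z.card = 2 * k + 1)
    (h : Shatters (unionFam (Sys K) k) (Z : Set (ℕ × ℕ))) : Z = whole i ∧ i = k := by
  classical
  have hsub : Z ⊆ whole i := by
    intro p hp
    refine mem_whole.2 ⟨(hZ p hp).1, ?_⟩
    rcases (hZ p hp).2 with h | h
    · exact absurd h hi
    · exact h
  have hcle : 2 * k + 1 ≤ 2 * i + 1 := by
    rw [← hc, ← card_whole i]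
    exact Finset.card_le_card hsub
  by_cases heq : whole i ⊆ Z
  · have hZw : Z = whole i := Finset.Subset.antisymm hsub heq
    refine ⟨hZw, ?_⟩
    rw [hZw, card_whole] at hc
    omega
  · exfalso
    obtain ⟨z, hz, hzZ⟩ := Finset.not_subset.1 heq
    obtain ⟨hz1, hz2⟩ := mem_whole.1 hz
    set v := z.2 with hv
    have hnv : ∀ p ∈ Z, p.2 ≠ v := by
      intro p hp hpv
      apply hzZ
      have : p = z := Prod.ext ((hZ p hp).1.trans hz1.symm) hpv
      rwa [← this]
    -- parity of the distance from `v` along the cycle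
    let c : ℕ × ℕ → ℕ := fun p => if v < p.2 then (p.2 - v) % 2 else (p.2 + (2 * i + 1) - v) % 2
    have hsplit : (Z.filter (fun p => c p = 0)).card + (Z.filter (fun p => ¬ c p = 0)).card
        = 2 * k + 1 := by
      rw [Finset.card_filter_add_card_filter_not, hc]
    have key : ∀ W : Finset (ℕ × ℕ), W ⊆ Z → k + 1 ≤ W.card →
        (∀ p ∈ W, ∀ q ∈ W, c p = c q) → False := by
      intro W hW hWc hWp
      obtain ⟨U, hUW, hUc⟩ := Finset.exists_subset_card_eq hWc
      have hUZ : U ⊂ Z := by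
        refine ⟨hUW.trans hW, fun hle => ?_⟩
        have := Finset.card_le_card hle
        omega
      obtain ⟨g, hg, hgU⟩ := exists_cover hZ h U hUZ
      have : U.card ≤ Finset.card (Finset.univ : Finset (Fin k)) * 1 := by
        rw [hgU]
        refine Finset.card_biUnion_le_card_mul _ _ _ fun j _ => ?_
        obtain ⟨hgU', x, y, hE, hxy⟩ := hg j
        rw [Finset.card_le_one]
        intro p hp q hq
        by_contra hpq
        have hpW := hUW (hgU' hp)
        have hqW := hUW (hgU' hq)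
        have hcpq := hWp p hpW q hqW
        have hp1 := mem_whole.1 (hsub (hW hpW))
        have hq1 := mem_whole.1 (hsub (hW hqW))
        have hpv := hnv p (hW hpW)
        have hqv := hnv q (hW hqW)
        have hpne : p.2 ≠ q.2 := fun h => hpq (Prod.ext (hp1.1.trans hq1.1.symm) h)
        have hxy' : ∀ r ∈ g j, r.2 = x ∨ r.2 = y := by
          intro r hr
          have := hxy hr
          simp only [Finset.mem_insert, Finset.mem_singleton] at this
          rcases this with h | h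
          · exact Or.inl (by rw [h])
          · exact Or.inr (by rw [h])
        have hE' : y = (x + 1) % (2 * i + 1) := by
          rcases hE with h | h
          · exact absurd h hi
          · exact h
        -- the two points are consecutive on the cycle
        have cons : ∀ a b : ℕ, a < 2 * i + 1 → b < 2 * i + 1 → b = (a + 1) % (2 * i + 1) →
            a ≠ v → b ≠ v →
            (if v < a then (a - v) % 2 else (a + (2 * i + 1) - v) % 2) ≠
              (if v < b then (b - v) % 2 else (b + (2 * i + 1) - v) % 2) := by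
          intro a b ha hb hab hav hbv
          by_cases haa : a + 1 < 2 * i + 1
          · rw [Nat.mod_eq_of_lt haa] at hab
            split_ifs <;> omega
          · have : a + 1 = 2 * i + 1 := by omega
            rw [this, Nat.mod_self] at hab
            split_ifs <;> omega
        rcases hxy' p hp with h1 | h1 <;> rcases hxy' q hq with h2 | h2
        · exact hpne (h1.trans h2.symm)
        · exact cons p.2 q.2 hp1.2 hq1.2 (by rw [h1, h2, hE']) hpv hqv hcpq
        · exact cons q.2 p.2 hq1.2 hp1.2 (by rw [h1, h2, hE']) hqv hpv hcpq.symm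
        · exact hpne (h1.trans h2.symm)
      rw [Finset.card_univ, Fintype.card_fin] at this
      omega
    have hc01 : ∀ p, c p < 2 := by
      intro p
      simp only [c]
      split_ifs <;> omega
    by_cases hbig : k + 1 ≤ (Z.filter (fun p => c p = 0)).card
    · refine key _ (Finset.filter_subset _ _) hbig ?_
      intro p hp q hq
      rw [(Finset.mem_filter.1 hp).2, (Finset.mem_filter.1 hq).2]
    · refine key (Z.filter (fun p => ¬ c p = 0)) (Finset.filter_subset _ _) (by omega) ?_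
      intro p hp q hq
      have h1 := (Finset.mem_filter.1 hp).2
      have h2 := (Finset.mem_filter.1 hq).2
      have h3 := hc01 p
      have h4 := hc01 q
      omega

/-- A set of size `2k+1` in gadget `0`. -/
def base (k : ℕ) : Finset (ℕ × ℕ) := (Finset.range (2 * k + 1)).image (fun x => (0, x))

lemma card_base (k : ℕ) : (base k).card = 2 * k + 1 := by
  rw [base, Finset.card_image_of_injective _ (Prod.mk_right_injective 0), Finset.card_range]

lemma inGadget_base (k : ℕ) : InGadget 0 (base k) := by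
  intro p hp
  simp only [base, Finset.mem_image] at hp
  obtain ⟨x, -, rfl⟩ := hp
  exact ⟨rfl, Or.inl rfl⟩

lemma isGreatest_sizes (K : Set ℕ) {k : ℕ} (hk : 1 ≤ k) :
    IsGreatest (shatteredSizes (unionFam (Sys K) k)) (2 * k + 1) := by
  refine ⟨⟨base k, shatters_gadget_zero hk (inGadget_base k) (card_base k), card_base k⟩, ?_⟩
  rintro n ⟨Y, hY, rfl⟩
  exact card_le_of_shatters hk hY

lemma VC_eq (K : Set ℕ) {k : ℕ} (hk : 1 ≤ k) : VC (unionFam (Sys K) k) = 2 * k + 1 :=
  (isGreatest_sizes K hk).csSup_eq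

lemma maxShattered_iff (K : Set ℕ) {k : ℕ} (hk : 1 ≤ k)
    (Y : Finset (ℕ × ℕ)) :
    Y ∈ maxShattered (Sys K) k ↔
      (InGadget 0 Y ∧ Y.card = 2 * k + 1) ∨ (k ∈ K ∧ Y = whole k) := by
  rw [maxShattered, mem_ofPred_eq, VC_eq K hk]
  constructor
  · rintro ⟨h, hc⟩
    obtain ⟨i, hi, hZ⟩ := inGadget_of_shatters hk h
    by_cases hi0 : i = 0
    · subst hi0
      exact Or.inl ⟨hZ, hc⟩
    · obtain ⟨h1, h2⟩ := eq_whole hk hi0 hZ hc h
      subst h2
      rcases hi with hi | hi
      · exact absurd hi hi0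
      · exact Or.inr ⟨hi, h1⟩
  · rintro (⟨h1, h2⟩ | ⟨h1, rfl⟩)
    · exact ⟨shatters_gadget_zero hk h1 h2, h2⟩
    · exact ⟨shatters_whole hk h1, card_whole k⟩

lemma encard_pair_le' (a b : X) : ({a, b} : Set X).encard ≤ 2 := by
  refine (encard_insert_le _ _).trans ?_
  rw [encard_singleton]
  norm_num

/-- Traces on a set inside gadget `0`. -/
lemma trace_zero (K : Set ℕ) {Y : Finset (ℕ × ℕ)} (hY : InGadget 0 Y) (U : Set (ℕ × ℕ)) :
    U ∈ traceFam (Sys K) (Y : Set (ℕ × ℕ)) ↔
      U ⊆ (Y : Set (ℕ × ℕ)) ∧ (U = (Y : Set (ℕ × ℕ)) ∨ U.encard ≤ 2) := by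
  constructor
  · rintro ⟨A, ⟨i, hi, T, hT, rfl⟩, rfl⟩
    refine ⟨inter_subset_right, ?_⟩
    by_cases hi0 : i = 0
    · subst hi0
      rcases hT with hT | ⟨x, hx, y, hy, -, hT⟩
      · left
        ext p
        simp only [mem_inter_iff, and_iff_right_iff_imp]
        intro _
        rw [hT]
        exact fun _ h2 => h2
      · right
        have hsub : mem 0 T ∩ (Y : Set (ℕ × ℕ)) ⊆ {(0, x), (0, y)} := by
          rintro p ⟨hp, hpY⟩
          have h1 := hY p hpY
          have h2 := hT (hp h1.1 h1.2)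
          rcases h2 with h2 | h2
          · left
            exact Prod.ext h1.1 h2
          · right
            exact Prod.ext h1.1 h2
        exact (encard_le_encard hsub).trans (encard_pair_le' _ _)
    · left
      ext p
      simp only [mem_inter_iff, and_iff_right_iff_imp]
      intro hp h1
      exact absurd (h1.symm.trans (hY p hp).1) hi0
  · rintro ⟨hU, hU2⟩
    rcases hU2 with hU2 | hU2
    · refine ⟨mem 0 (V 0), ⟨0, Or.inl rfl, V 0, Or.inl rfl, rfl⟩, ?_⟩
      rw [hU2]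
      ext p
      simp only [mem_inter_iff, iff_and_self]
      exact fun _ _ h2 => h2
    · have hfin : U.Finite := Y.finite_toSet.subset hU
      have key : ∃ x y : ℕ, U ⊆ {(0, x), (0, y)} := by
        rcases Set.eq_empty_or_nonempty U with h | ⟨a, ha⟩
        · exact ⟨0, 0, by rw [h]; exact empty_subset _⟩
        · by_cases hb : ∃ b ∈ U, b ≠ a
          · obtain ⟨b, hb, hba⟩ := hb
            refine ⟨a.2, b.2, fun p hp => ?_⟩
            by_contra hpn
            simp only [mem_insert_iff, mem_singleton_iff, not_or] at hpn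
            have hpa : p ≠ a := fun h => hpn.1 (Prod.ext (hY p (hU hp)).1 (by rw [h]))
            have hpb : p ≠ b := fun h => hpn.2 (Prod.ext (hY p (hU hp)).1 (by rw [h]))
            have h3 : ({p, a, b} : Set (ℕ × ℕ)) ⊆ U := by
              intro q hq
              simp only [mem_insert_iff, mem_singleton_iff] at hq
              rcases hq with rfl | rfl | rfl <;> assumption
            have h4 : ({p, a, b} : Set (ℕ × ℕ)).encard = 3 := by
              rw [encard_insert_of_notMem (by simp [hpa, hpb]), encard_pair hba.symm]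
              norm_num
            have h5 := encard_le_encard h3
            rw [h4] at h5
            have h6 := h5.trans hU2
            norm_num at h6
          · push Not at hb
            refine ⟨a.2, a.2, fun p hp => ?_⟩
            left
            exact Prod.ext (hY p (hU hp)).1 (by rw [hb p hp])
      obtain ⟨x, y, hxy⟩ := key
      refine ⟨mem 0 {a | (0, a) ∈ U}, ⟨0, Or.inl rfl, _, Or.inr ⟨x, Or.inl rfl, y, Or.inl rfl,
        Or.inl rfl, ?_⟩, rfl⟩, ?_⟩
      · intro a ha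
        have := hxy ha
        simp only [mem_insert_iff, mem_singleton_iff, Prod.mk.injEq, true_and] at this
        exact this
      · ext p
        simp only [mem_inter_iff]
        constructor
        · intro hp
          have h1 := hY p (hU hp)
          have h3 : ((0 : ℕ), p.2) = p := Prod.ext h1.1.symm rfl
          refine ⟨fun _ _ => ?_, hU hp⟩
          simp only [mem_ofPred_eq]
          rwa [h3]
        · rintro ⟨hp, hpY⟩
          have h1 := hY p hpY
          have h3 : ((0 : ℕ), p.2) = p := Prod.ext h1.1.symm rfl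
          have h2 := hp h1.1 h1.2
          simp only [mem_ofPred_eq] at h2
          rwa [h3] at h2

/-- Two sets of the same size in gadget `0` are shatter-isomorphic. -/
lemma iso_zero (K : Set ℕ) {Y Y' : Finset (ℕ × ℕ)} (hY : InGadget 0 Y) (hY' : InGadget 0 Y')
    (hc : Y.card = Y'.card) : ShatterIso (Sys K) Y Y' := by
  classical
  let e := Finset.equivOfCardEq hc
  let f : ℕ × ℕ → ℕ × ℕ := fun p => if h : p ∈ Y then (e ⟨p, h⟩).1 else p
  have hfY : ∀ p (h : p ∈ Y), f p = (e ⟨p, h⟩).1 := fun p h => by simp [f, h]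
  have hmaps : MapsTo f (Y : Set (ℕ × ℕ)) (Y' : Set (ℕ × ℕ)) := by
    intro p hp
    rw [hfY p hp]
    exact (e ⟨p, hp⟩).2
  have hinj : InjOn f (Y : Set (ℕ × ℕ)) := by
    intro p hp q hq hpq
    rw [hfY p hp, hfY q hq] at hpq
    have := e.injective (Subtype.ext hpq)
    exact congrArg Subtype.val this
  have hsurj : SurjOn f (Y : Set (ℕ × ℕ)) (Y' : Set (ℕ × ℕ)) := by
    intro q hq
    refine ⟨(e.symm ⟨q, hq⟩).1, (e.symm ⟨q, hq⟩).2, ?_⟩
    rw [hfY _ (e.symm ⟨q, hq⟩).2]
    simp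
  have hbij : BijOn f (Y : Set (ℕ × ℕ)) (Y' : Set (ℕ × ℕ)) := ⟨hmaps, hinj, hsurj⟩
  refine ⟨f, hbij, ?_⟩
  ext W
  rw [trace_zero K hY' W]
  simp only [mem_ofPred_eq]
  constructor
  · rintro ⟨U, hU, rfl⟩
    rw [trace_zero K hY U] at hU
    refine ⟨(image_mono hU.1).trans hbij.image_eq.subset, ?_⟩
    rcases hU.2 with h | h
    · left
      rw [h, hbij.image_eq]
    · right
      exact (encard_image_le f U).trans h
  · rintro ⟨hW, hW2⟩
    have himg : f '' ((Y : Set (ℕ × ℕ)) ∩ f ⁻¹' W) = W := by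
      ext q
      constructor
      · rintro ⟨p, hp, rfl⟩
        exact hp.2
      · intro hq
        obtain ⟨p, hp, rfl⟩ := hsurj (hW hq)
        exact ⟨p, ⟨hp, hq⟩, rfl⟩
    refine ⟨(Y : Set (ℕ × ℕ)) ∩ f ⁻¹' W, ?_, himg.symm⟩
    rw [trace_zero K hY]
    refine ⟨inter_subset_left, ?_⟩
    rcases hW2 with h | h
    · left
      rw [h]
      exact inter_eq_left.2 hmaps
    · right
      rw [← (hinj.mono inter_subset_left).encard_image, himg]
      exact h

/-- The pair `{(k,0), (k,2)}` is not a trace on the whole of gadget `k ≥ 2`. -/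
lemma not_trace_whole (K : Set ℕ) {k : ℕ} (hk : 2 ≤ k) :
    ({(k, 0), (k, 2)} : Set (ℕ × ℕ)) ∉ traceFam (Sys K) (whole k : Set (ℕ × ℕ)) := by
  rintro ⟨A, ⟨i, hi, T, hT, rfl⟩, hA⟩
  have h1 : ((k, 1) : ℕ × ℕ) ∈ whole k := mem_whole.2 ⟨rfl, by simp only; omega⟩
  have h0 : ((k, 0) : ℕ × ℕ) ∈ whole k := mem_whole.2 ⟨rfl, by simp only; omega⟩
  have h2 : ((k, 2) : ℕ × ℕ) ∈ whole k := mem_whole.2 ⟨rfl, by simp only; omega⟩
  have hn1 : ((k, 1) : ℕ × ℕ) ∉ mem i T := by
    intro h
    have : ((k, 1) : ℕ × ℕ) ∈ ({(k, 0), (k, 2)} : Set (ℕ × ℕ)) := by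
      rw [hA]; exact ⟨h, h1⟩
    simp at this
  have hm0 : ((k, 0) : ℕ × ℕ) ∈ mem i T := by
    have : ((k, 0) : ℕ × ℕ) ∈ ({(k, 0), (k, 2)} : Set (ℕ × ℕ)) := by simp
    rw [hA] at this
    exact this.1
  have hm2 : ((k, 2) : ℕ × ℕ) ∈ mem i T := by
    have : ((k, 2) : ℕ × ℕ) ∈ ({(k, 0), (k, 2)} : Set (ℕ × ℕ)) := by simp
    rw [hA] at this
    exact this.1
  simp only [mem, mem_ofPred_eq, Classical.not_imp] at hn1 hm0 hm2
  obtain ⟨hki, -, hn1⟩ := hn1
  subst hki
  have hT0 : 0 ∈ T := hm0 rfl (Or.inr (by omega))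
  have hT2 : 2 ∈ T := hm2 rfl (Or.inr (by omega))
  rcases hT with hT | ⟨x, hx, y, hy, hE, hT⟩
  · apply hn1
    rw [hT]
    exact Or.inr (by omega)
  · have h3 := hT hT0
    have h4 := hT hT2
    simp only [mem_insert_iff, mem_singleton_iff] at h3 h4
    rcases hE with hE | hE
    · omega
    · rcases h3 with h3 | h3 <;> rcases h4 with h4 | h4
      · omega
      · rw [← h3, ← h4, Nat.mod_eq_of_lt (by omega)] at hE
        omega
      · rw [← h3, ← h4, Nat.mod_eq_of_lt (by omega)] at hE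
        omega
      · omega

lemma not_iso (K : Set ℕ) {k : ℕ} (hk : 2 ≤ k) {Y : Finset (ℕ × ℕ)} (hY : InGadget 0 Y) :
    ¬ ShatterIso (Sys K) Y (whole k) := by
  rintro ⟨f, hf, hT⟩
  have h0 : ((k, 0) : ℕ × ℕ) ∈ whole k := mem_whole.2 ⟨rfl, by simp only; omega⟩
  have h2 : ((k, 2) : ℕ × ℕ) ∈ whole k := mem_whole.2 ⟨rfl, by simp only; omega⟩
  obtain ⟨a, ha, ha'⟩ := hf.surjOn h0
  obtain ⟨b, hb, hb'⟩ := hf.surjOn h2
  apply not_trace_whole K hk
  rw [← hT]
  refine ⟨{a, b}, ?_, ?_⟩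
  · rw [trace_zero K hY]
    refine ⟨?_, Or.inr (encard_pair_le' _ _)⟩
    rintro p (rfl | rfl) <;> assumption
  · rw [image_pair, ha', hb']

lemma not_iso' (K : Set ℕ) {k : ℕ} (hk : 2 ≤ k) {Y : Finset (ℕ × ℕ)} (hY : InGadget 0 Y) :
    ¬ ShatterIso (Sys K) (whole k) Y := by
  rintro ⟨f, hf, hT⟩
  have h0 : ((k, 0) : ℕ × ℕ) ∈ whole k := mem_whole.2 ⟨rfl, by simp only; omega⟩
  have h2 : ((k, 2) : ℕ × ℕ) ∈ whole k := mem_whole.2 ⟨rfl, by simp only; omega⟩
  have hmem : ({f (k, 0), f (k, 2)} : Set (ℕ × ℕ)) ∈ traceFam (Sys K) (Y : Set (ℕ × ℕ)) := by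
    rw [trace_zero K hY]
    refine ⟨?_, Or.inr (encard_pair_le' _ _)⟩
    rintro p (rfl | rfl)
    · exact hf.mapsTo h0
    · exact hf.mapsTo h2
  rw [← hT] at hmem
  obtain ⟨U, hU, hUf⟩ := hmem
  have hUsub : U ⊆ (whole k : Set (ℕ × ℕ)) := by
    obtain ⟨A, -, rfl⟩ := hU
    exact inter_subset_right
  have hUeq : U = {(k, 0), (k, 2)} := by
    have himg : f '' U = f '' ({(k, 0), (k, 2)} : Set (ℕ × ℕ)) := by
      rw [← hUf, image_pair]
    refine (hf.injOn.image_eq_image_iff hUsub ?_).1 himg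
    rintro p (rfl | rfl) <;> assumption
  rw [hUeq] at hU
  exact not_trace_whole K hk hU

lemma iso_refl (S : Set (Set X)) (Y : Finset X) : ShatterIso S Y Y := by
  refine ⟨id, bijOn_id _, ?_⟩
  ext T
  simp

open Classical in
lemma sSeq_eq (K : Set ℕ) (hK : ∀ k ∈ K, 2 ≤ k) {k : ℕ} (hk : 1 ≤ k) :
    sSeq (Sys K) k = if k ∈ K then 2 else 1 := by
  have hbase : base k ∈ maxShattered (Sys K) k :=
    (maxShattered_iff K hk _).2 (Or.inl ⟨inGadget_base k, card_base k⟩)
  by_cases hkK : k ∈ K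
  · rw [if_pos hkK]
    have hk2 := hK k hkK
    have hwhole : whole k ∈ maxShattered (Sys K) k :=
      (maxShattered_iff K hk _).2 (Or.inr ⟨hkK, rfl⟩)
    have hne : {Y' | Y' ∈ maxShattered (Sys K) k ∧ ShatterIso (Sys K) (base k) Y'} ≠
        {Y' | Y' ∈ maxShattered (Sys K) k ∧ ShatterIso (Sys K) (whole k) Y'} := by
      intro h
      have : whole k ∈ {Y' | Y' ∈ maxShattered (Sys K) k ∧ ShatterIso (Sys K) (whole k) Y'} :=
        ⟨hwhole, iso_refl _ _⟩
      rw [← h] at this
      exact not_iso K hk2 (inGadget_base k) this.2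
    rw [← ncard_pair hne, sSeq]
    congr 1
    ext C
    simp only [mem_ofPred_eq, mem_insert_iff, mem_singleton_iff]
    constructor
    · rintro ⟨Y, hY, rfl⟩
      rcases (maxShattered_iff K hk _).1 hY with ⟨h1, h2⟩ | ⟨-, rfl⟩
      · left
        ext Y'
        simp only [mem_ofPred_eq, and_congr_right_iff]
        intro hY'
        rcases (maxShattered_iff K hk _).1 hY' with ⟨h3, h4⟩ | ⟨-, rfl⟩
        · exact ⟨fun _ => iso_zero K (inGadget_base k) h3 ((card_base k).trans h4.symm),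
            fun _ => iso_zero K h1 h3 (h2.trans h4.symm)⟩
        · exact ⟨fun h => absurd h (not_iso K hk2 h1),
            fun h => absurd h (not_iso K hk2 (inGadget_base k))⟩
      · exact Or.inr rfl
    · rintro (rfl | rfl)
      · exact ⟨base k, hbase, rfl⟩
      · exact ⟨whole k, hwhole, rfl⟩
  · rw [if_neg hkK, sSeq, ncard_eq_one]
    refine ⟨{Y' | Y' ∈ maxShattered (Sys K) k ∧ ShatterIso (Sys K) (base k) Y'}, ?_⟩
    ext C
    simp only [mem_ofPred_eq, mem_singleton_iff]
    constructor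
    · rintro ⟨Y, hY, rfl⟩
      rcases (maxShattered_iff K hk _).1 hY with ⟨h1, h2⟩ | ⟨h, -⟩
      · ext Y'
        simp only [mem_ofPred_eq, and_congr_right_iff]
        intro hY'
        rcases (maxShattered_iff K hk _).1 hY' with ⟨h3, h4⟩ | ⟨h, -⟩
        · exact ⟨fun _ => iso_zero K (inGadget_base k) h3 ((card_base k).trans h4.symm),
            fun _ => iso_zero K h1 h3 (h2.trans h4.symm)⟩
        · exact absurd h hkK
      · exact absurd h hkK
    · rintro rfl
      exact ⟨base k, hbase, rfl⟩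

lemma unionFam_one (S : Set (Set X)) : unionFam S 1 = S := by
  ext A
  constructor
  · rintro ⟨f, hf, rfl⟩
    have : (⋃ i, f i) = f 0 := by
      ext x
      simp only [mem_iUnion]
      exact ⟨fun ⟨i, hi⟩ => by rwa [Subsingleton.elim i 0] at hi, fun h => ⟨0, h⟩⟩
    rw [this]
    exact hf 0
  · intro hA
    refine ⟨fun _ => A, fun _ => hA, ?_⟩
    ext x
    simp

open Classical in
/-- **Main result.** For every set `K` of integers `≥ 2` there is a set system `S` on the infinite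
set `ℕ × ℕ` whose VC-dimension is finite (it is `3`), such that for every `k ≥ 1` the `k`-fold
union family has VC-dimension exactly `d_k = 2k+1`, and the maximal-shattering sequence is
`s_k = 2` for `k ∈ K` and `s_k = 1` for `k ∉ K`. -/
theorem result (K : Set ℕ) (hK : ∀ k ∈ K, 2 ≤ k) :
    ∃ S : Set (Set (ℕ × ℕ)),
      IsGreatest (shatteredSizes S) 3 ∧
      ∀ k : ℕ, 1 ≤ k →
        IsGreatest (shatteredSizes (unionFam S k)) (2 * k + 1) ∧
        sSeq S k = if k ∈ K then 2 else 1 := by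
  refine ⟨Sys K, ?_, fun k hk => ⟨isGreatest_sizes K hk, sSeq_eq K hK hk⟩⟩
  have h := isGreatest_sizes K (le_refl 1)
  rw [unionFam_one] at h
  exact h

end Pool.Agent.Results.MP_522a36_co.ShatteringSeq
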